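import Pool.Agent.Helper44.GH.Stmts

/-!
GH, module CMP: the superlevel sets of `MS` on the affine space `V + KB B` are compact.
-/

open Finset MeasureTheory Filter Topology Matrix
open scoped ENNReal ContDiff

namespace Pool.Agent.Helper44.GH

open Pool.Agent.Helper44.GF Pool.Agent.Helper44.GN

theorem cmp_inj {n m : ℕ} {B : Matrix (Fin m) (Fin n) ℝ} {W : Matrix (Fin n) (Fin m) ℝ}
    (h : B * W = 1) : Function.Injective W.mulVec := by
  intro x y hxy
  have h1 : B.mulVec (W.mulVec x) = B.mulVec (W.mulVec y) := by rw [hxy]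
  rw [Matrix.mulVec_mulVec, Matrix.mulVec_mulVec, h, Matrix.one_mulVec, Matrix.one_mulVec] at h1
  exact h1

theorem cmp_tau {n : ℕ} {Y : Type} [Fintype Y] [DecidableEq Y] {δ : ℝ} {r : Y → ℝ} (hd : 0 < δ)
    (hr : ∀ y, 0 < r y) (η : Finset (Fin n × Y)) : tau δ r η ∈ Og n := by
  intro i
  unfold tau
  have : 0 ≤ ∑ y, (if (i, y) ∈ η then r y else 0) := by
    apply Finset.sum_nonneg
    intro y _
    split
    · exact (hr y).le
    · exact le_refl 0
  linarith

theorem cmp_zw {n : ℕ} {Y : Type} [Fintype Y] [DecidableEq Y] {z : Y → ℝ} (hz : ∀ y, 0 < z y)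
    (η : Finset (Fin n × Y)) : 0 < zw z η := Finset.prod_pos fun x _ => hz x.2

/-- The auxiliary matrix. -/
noncomputable def cmpU {n m : ℕ} (B1 : Matrix (Fin m) (Fin n) ℝ) (y : Fin n → ℝ) :
    Matrix (Fin n) (Fin m) ℝ := Matrix.of fun j b => B1 b j / y j

theorem cmp_TT {n m : ℕ} (B1 : Matrix (Fin m) (Fin n) ℝ) (W : Matrix (Fin n) (Fin m) ℝ)
    (y : Fin n → ℝ) (hy : y ∈ Og n) : TT (cmpU B1 y) W y = B1 * W := by
  ext a b
  unfold TT cmpU
  rw [Matrix.mul_apply, Matrix.mul_apply]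
  apply Finset.sum_congr rfl
  intro j _
  rw [Matrix.mul_diagonal]
  simp only [Matrix.transpose_apply, Matrix.of_apply]
  have := (hy j).ne'
  field_simp

theorem cmp_Uinj {n m : ℕ} (B1 : Matrix (Fin m) (Fin n) ℝ) (W : Matrix (Fin n) (Fin m) ℝ)
    (y : Fin n → ℝ) (hy : y ∈ Og n) (hdet : (B1 * W).det ≠ 0) :
    Function.Injective (cmpU B1 y).mulVec := by
  have key : ∀ x : Fin m → ℝ, (cmpU B1 y).mulVec x = 0 → x = 0 := by
    intro x hx
    have h1 : (B1ᵀ).mulVec x = 0 := by
      funext j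
      have h2 := congrFun hx j
      have h3 : (cmpU B1 y).mulVec x j = (B1ᵀ).mulVec x j / y j := by
        simp only [Matrix.mulVec, dotProduct, cmpU, Matrix.of_apply, Matrix.transpose_apply]
        rw [Finset.sum_div]
        apply Finset.sum_congr rfl
        intro b _
        ring
      rw [h3] at h2
      have h4 := (hy j).ne'
      simp only [Pi.zero_apply] at h2 ⊢
      rcases div_eq_zero_iff.mp h2 with h | h
      · exact h
      · exact absurd h h4
    have h5 : ((B1 * W)ᵀ).mulVec x = 0 := by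
      rw [Matrix.transpose_mul, ← Matrix.mulVec_mulVec, h1, Matrix.mulVec_zero]
    exact Matrix.eq_zero_of_mulVec_eq_zero (by rwa [Matrix.det_transpose]) h5
  intro x x' h
  have h0 : (cmpU B1 y).mulVec (x - x') = 0 := by
    rw [Matrix.mulVec_sub, h, sub_self]
  exact sub_eq_zero.mp (key _ h0)

theorem cmp_det {n m : ℕ} (B : Matrix (Fin m) (Fin n) ℝ) (W : Matrix (Fin n) (Fin m) ℝ)
    (h : B * W = 1) (σ : ℝ) (a : Fin m) (i : Fin n) :
    ((B + Matrix.single a i σ) * W).det = 1 + σ * W i a := by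
  rw [Matrix.add_mul, h]
  have e : Matrix.single a i σ * W =
      Matrix.replicateCol Unit (Pi.single a σ) * Matrix.replicateRow Unit (W i) := by
    ext p q
    rw [Matrix.mul_apply, Matrix.mul_apply]
    simp only [Matrix.replicateCol_apply, Matrix.replicateRow_apply, Finset.univ_unique,
      Finset.sum_singleton]
    rw [Finset.sum_eq_single i]
    · rw [Matrix.single_apply]
      by_cases hp : a = p
      · subst hp
        simp
      · rw [if_neg (fun hh => hp hh.1), Pi.single_apply, if_neg (fun hh => hp hh.symm)]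
    · intro j _ hj
      rw [Matrix.single_apply, if_neg (fun hh => hj hh.2.symm), zero_mul]
    · intro hi
      exact absurd (Finset.mem_univ i) hi
  rw [e, Matrix.det_one_add_mul_comm, Matrix.det_unique]
  simp only [Matrix.add_apply, Matrix.one_apply_eq, Matrix.mul_apply, Matrix.replicateRow_apply,
    Matrix.replicateCol_apply]
  rw [Finset.sum_eq_single a]
  · rw [Pi.single_eq_same]
    ring
  · intro b _ hb
    rw [Pi.single_eq_of_ne hb, mul_zero]
  · intro ha
    exact absurd (Finset.mem_univ a) ha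

/-- The bound. -/
noncomputable def cmpS {n m : ℕ} {Y : Type} [Fintype Y] [DecidableEq Y]
    (B : Matrix (Fin m) (Fin n) ℝ) (δ : ℝ) (r z : Y → ℝ) (σ : ℝ) (a : Fin m) (i : Fin n) : ℝ :=
  ∑ η : Finset (Fin n × Y), zw z η *
    √(qf (cmpU (B + Matrix.single a i σ) (tau δ r η)) (tau δ r η))

theorem cmp_S_nn {n m : ℕ} {Y : Type} [Fintype Y] [DecidableEq Y]
    (B : Matrix (Fin m) (Fin n) ℝ) (δ : ℝ) (r z : Y → ℝ) (hz : ∀ y, 0 < z y) (σ : ℝ)
    (a : Fin m) (i : Fin n) : 0 ≤ cmpS B δ r z σ a i :=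
  Finset.sum_nonneg fun η _ => mul_nonneg (cmp_zw hz η).le (Real.sqrt_nonneg _)

theorem cmp_entry (hR : Pool.Agent.Helper44.GN.ST_RHO) (hF : Pool.Agent.Helper44.GN.ST_FCT)
    {n m : ℕ} {Y : Type} [Fintype Y] [DecidableEq Y]
    (B : Matrix (Fin m) (Fin n) ℝ) (W : Matrix (Fin n) (Fin m) ℝ) (h : B * W = 1)
    (δ : ℝ) (r z : Y → ℝ) (hd : 0 < δ) (hr : ∀ y, 0 < r y) (hz : ∀ y, 0 < z y)
    (σ : ℝ) (hσ : σ = 1 ∨ σ = -1) (a : Fin m) (i : Fin n) (hx : 0 ≤ σ * W i a) :
    (1 + |W i a|) * MS W δ r z ≤ cmpS B δ r z σ a i := by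
  have habs : σ * W i a = |W i a| := by
    rcases hσ with h1 | h1
    · subst h1
      rw [one_mul] at hx ⊢
      exact (abs_of_nonneg hx).symm
    · subst h1
      have : W i a ≤ 0 := by linarith
      rw [abs_of_nonpos this]
      ring
  unfold MS cmpS
  rw [Finset.mul_sum]
  apply Finset.sum_le_sum
  intro η _
  have hy := cmp_tau (n := n) hd hr η
  set y := tau δ r η with hydef
  set B1 := B + Matrix.single a i σ with hB1
  have hdet : (B1 * W).det = 1 + |W i a| := by
    rw [hB1, cmp_det B W h, habs]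
  have hpos : 0 < 1 + |W i a| := by
    have := abs_nonneg (W i a)
    linarith
  have hWi := cmp_inj h
  have hUi := cmp_Uinj B1 W y hy (by rw [hdet]; exact hpos.ne')
  have h1 := hR n m (cmpU B1 y) W hUi hWi y hy
  obtain ⟨qU, qW, hsg, -⟩ := hF n m (cmpU B1 y) W hUi hWi y hy
  rw [cmp_TT B1 W y hy, hdet] at h1
  have h2 : Real.exp (-sg (cmpU B1 y) W y) ≤ 1 := by
    rw [Real.exp_le_one_iff]
    linarith
  have h3 : (1 + |W i a|) ^ 2 ≤ qf (cmpU B1 y) y * qf W y := by
    refine h1.trans ?_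
    have := mul_pos qU qW
    nlinarith
  have h4 : (1 + |W i a|) ≤ √(qf (cmpU B1 y) y) * √(qf W y) := by
    rw [← Real.sqrt_mul qU.le]
    exact Real.le_sqrt_of_sq_le h3
  unfold W1
  rw [← hydef]
  have h5 : (qf W y) ^ (-(1 / 2) : ℝ) = (√(qf W y))⁻¹ := by
    rw [Real.rpow_neg qW.le, ← Real.sqrt_eq_rpow]
  rw [h5]
  have h6 : 0 < √(qf W y) := Real.sqrt_pos.mpr qW
  have h7 : (1 + |W i a|) * (√(qf W y))⁻¹ ≤ √(qf (cmpU B1 y) y) := by
    rw [← div_eq_mul_inv, div_le_iff₀ h6]
    exact h4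
  calc (1 + |W i a|) * (zw z η * (√(qf W y))⁻¹)
      = zw z η * ((1 + |W i a|) * (√(qf W y))⁻¹) := by ring
    _ ≤ zw z η * √(qf (cmpU B1 y) y) := mul_le_mul_of_nonneg_left h7 (cmp_zw hz η).le

/-- CMP -/
theorem st_CMP (hCTJ : ST_CTJ) (hCNT : ST_CNT) (hR : Pool.Agent.Helper44.GN.ST_RHO)
    (hF : Pool.Agent.Helper44.GN.ST_FCT) : ST_CMP := by
  intro n m Y _ _ s ζ δ r z V B hMD hBV
  have hBW : ∀ w : KB B, B * (V + Matrix.of (w : Fin n → Fin m → ℝ)) = 1 := by
    intro w
    have hw : B * Matrix.of (w : Fin n → Fin m → ℝ) = 0 := w.2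
    rw [Matrix.mul_add, hBV, hw, add_zero]
  have hcont : Continuous (GB B V δ r z) := by
    have h1 := (hCTJ n m Y s ζ δ r z hMD).2.1
    have h2 : Continuous (fun w : KB B => V + Matrix.of (w : Fin n → Fin m → ℝ)) := by
      apply Continuous.add continuous_const
      refine continuous_matrix ?_
      intro i j
      have h3 : Continuous (fun w : KB B => (w : Fin n → Fin m → ℝ)) := continuous_subtype_val
      exact (continuous_apply j).comp ((continuous_apply i).comp h3)
    exact h1.comp_continuous h2 fun w => cmp_inj (hBW w)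
  have hpos : ∀ w, 0 < GB B V δ r z w := by
    intro w
    unfold GB MS
    apply Finset.sum_pos
    · intro η _
      unfold W1
      have hq := (hCNT n m _ V (cmp_inj (hBW w))).1 _ (cmp_tau (n := n) hMD.d0 hMD.r0 η)
      exact mul_pos (cmp_zw hMD.z0 η) (Real.rpow_pos_of_pos hq _)
    · exact ⟨∅, Finset.mem_univ _⟩
  refine ⟨hcont, hpos, ?_⟩
  intro c hc
  have hclosed : IsClosed {w | c ≤ GB B V δ r z w} := isClosed_le continuous_const hcont
  let R : ℝ := ∑ i, ∑ a, ((cmpS B δ r z 1 a i + cmpS B δ r z (-1) a i) / c + |V i a|)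
  have hterm : ∀ (i : Fin n) (a : Fin m),
      0 ≤ (cmpS B δ r z 1 a i + cmpS B δ r z (-1) a i) / c + |V i a| := by
    intro i a
    have h1 := cmp_S_nn B δ r z hMD.z0 1 a i
    have h2 := cmp_S_nn B δ r z hMD.z0 (-1) a i
    have h3 := abs_nonneg (V i a)
    positivity
  have hRle : ∀ (i : Fin n) (a : Fin m),
      (cmpS B δ r z 1 a i + cmpS B δ r z (-1) a i) / c + |V i a| ≤ R := by
    intro i a
    have h1 : (cmpS B δ r z 1 a i + cmpS B δ r z (-1) a i) / c + |V i a| ≤
        ∑ a, ((cmpS B δ r z 1 a i + cmpS B δ r z (-1) a i) / c + |V i a|) :=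
      Finset.single_le_sum (f := fun a => (cmpS B δ r z 1 a i + cmpS B δ r z (-1) a i) / c
        + |V i a|) (fun a _ => hterm i a) (Finset.mem_univ a)
    have h2 : ∑ a, ((cmpS B δ r z 1 a i + cmpS B δ r z (-1) a i) / c + |V i a|) ≤ R :=
      Finset.single_le_sum (f := fun i => ∑ a, ((cmpS B δ r z 1 a i
        + cmpS B δ r z (-1) a i) / c + |V i a|))
        (fun i _ => Finset.sum_nonneg fun a _ => hterm i a) (Finset.mem_univ i)
    exact h1.trans h2
  have hR0 : 0 ≤ R := Finset.sum_nonneg fun i _ => Finset.sum_nonneg fun a _ => hterm i a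
  have hbdd : Bornology.IsBounded {w | c ≤ GB B V δ r z w} := by
    rw [isBounded_iff_forall_norm_le]
    refine ⟨R, ?_⟩
    intro w hw
    have hw' : c ≤ MS (V + Matrix.of (w : Fin n → Fin m → ℝ)) δ r z := hw
    rw [Submodule.coe_norm, pi_norm_le_iff_of_nonneg hR0]
    intro i
    rw [pi_norm_le_iff_of_nonneg hR0]
    intro a
    rw [Real.norm_eq_abs]
    set W := V + Matrix.of (w : Fin n → Fin m → ℝ) with hW
    have hWia : W i a = V i a + (w : Fin n → Fin m → ℝ) i a := by
      rw [hW, Matrix.add_apply, Matrix.of_apply]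
    have hx : |W i a| ≤ (cmpS B δ r z 1 a i + cmpS B δ r z (-1) a i) / c := by
      have h1 := cmp_S_nn B δ r z hMD.z0 1 a i
      have h2 := cmp_S_nn B δ r z hMD.z0 (-1) a i
      have h3 : (1 + |W i a|) * MS W δ r z ≤
          cmpS B δ r z 1 a i + cmpS B δ r z (-1) a i := by
        rcases le_total 0 (W i a) with h4 | h4
        · have := cmp_entry hR hF B W (hBW w) δ r z hMD.d0 hMD.r0 hMD.z0 1 (Or.inl rfl) a i
            (by linarith)
          linarith
        · have := cmp_entry hR hF B W (hBW w) δ r z hMD.d0 hMD.r0 hMD.z0 (-1) (Or.inr rfl) a i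
            (by linarith)
          linarith
      rw [le_div_iff₀ hc]
      have h5 := abs_nonneg (W i a)
      nlinarith
    have h8 : |(w : Fin n → Fin m → ℝ) i a| ≤ |W i a| + |V i a| := by
      have : (w : Fin n → Fin m → ℝ) i a = W i a - V i a := by
        rw [hWia]
        ring
      rw [this]
      exact abs_sub _ _
    exact h8.trans ((add_le_add_left hx _).trans (hRle i a))
  exact Metric.isCompact_of_isClosed_isBounded hclosed hbdd

end Pool.Agent.Helper44.GH
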