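import Pool.Agent.Helper44.GH.Stmts
import Pool.Agent.Helper94.GF.LINK

/-!
GH, module GI3: Gaussian integrals, one and three replicas.
-/

open Finset MeasureTheory Filter Topology Matrix
open scoped ENNReal ContDiff

namespace Pool.Agent.Helper44.GH

open Pool.Agent.Helper44.GF Pool.Agent.Helper44.GN

/-- GI3 -/
theorem st_GI3 : ST_GI3 := by
  intro n m V hV y hy
  obtain ⟨h1, h2, h3⟩ := link_gauss V hV y hy
  have hq : 0 < qf V y := h2
  have hG : 0 < G0 m := link_gauss_pos m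
  have h3' : ∫ x : Fin m → ℝ, Real.exp (-∑ i, y i * (V.mulVec x i) ^ 2)
      = G0 m * (qf V y) ^ (-(1 / 2) : ℝ) := by
    rw [h3, mul_comm]
    rfl
  have hprod : ∀ X : Fin 3 → Fin m → ℝ, Real.exp (-∑ i, y i * nq V X i)
      = ∏ k, Real.exp (-∑ i, y i * (V.mulVec (X k) i) ^ 2) := by
    intro X
    rw [← Real.exp_sum, Finset.sum_neg_distrib, Finset.sum_comm]
    congr 2
    apply Finset.sum_congr rfl
    intro i _
    unfold nq
    rw [Finset.mul_sum]
  refine ⟨hG, h1, h3', ?_, ?_⟩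
  · have h4 := Integrable.fintype_prod (μ := fun _ : Fin 3 => (volume : Measure (Fin m → ℝ)))
      (f := fun (_ : Fin 3) (x : Fin m → ℝ) => Real.exp (-∑ i, y i * (V.mulVec x i) ^ 2))
      (fun _ => h1)
    refine h4.congr (Filter.Eventually.of_forall fun X => ?_)
    exact (hprod X).symm
  · have h5 := integral_fintype_prod_volume_eq_pow (ι := Fin 3)
      (fun x : Fin m → ℝ => Real.exp (-∑ i, y i * (V.mulVec x i) ^ 2))
    calc ∫ X : Fin 3 → Fin m → ℝ, Real.exp (-∑ i, y i * nq V X i)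
        = ∫ X : Fin 3 → Fin m → ℝ, ∏ k, Real.exp (-∑ i, y i * (V.mulVec (X k) i) ^ 2) := by
          congr 1
          funext X
          exact hprod X
      _ = (G0 m * (qf V y) ^ (-(1 / 2) : ℝ)) ^ 3 := by
          rw [h5, h3', Fintype.card_fin]
      _ = G0 m ^ 3 * (qf V y) ^ (-(3 / 2) : ℝ) := by
          rw [mul_pow, ← Real.rpow_natCast ((qf V y) ^ (-(1 / 2) : ℝ)) 3, ← Real.rpow_mul hq.le]
          norm_num

end Pool.Agent.Helper44.GH
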